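import Pool.Agent.Q49.TL.Tk
import Pool.Agent.Q49.TL.Wp
import Pool.Agent.Q49.TL.Idx
import Pool.Agent.Q177.TL.Line
import Pool.Agent.Q216.TL.Wit
import Pool.Agent.Q216.TL.Unr
import Pool.Agent.Q34.TL.Gwi
import Pool.Agent.Q34.TL.Hen
import Pool.Agent.Q225.TL.Kap
import Pool.Agent.Q225.TL.Gen
import Pool.Agent.Q225.TL.Dsc

set_option autoImplicit false

/-!
# Hypersurfaces over `p`-adic fields: the part of the index prime to `p`

Let `K` be a finite extension of `ℚ_p` and `(a)_ℓ = ℓ ^ (a.factorization ℓ)` the `ℓ`-part of `a`.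

(1) Let `X` be a hypersurface of degree `d` in `ℙⁿ` over `K`, `n ≥ 1`, such that `d (d)_ℓ ≤ n`
for all prime divisors `ℓ ≠ p` of `d`; for example `d ^ 2 ≤ n`. Then the index of `X` divides
`(d)_p`. It is `1` if `p` does not divide `d`.

(2) Let `f_j` be weighted homogeneous polynomials over `K` of degrees `e_j > 0` in variables of
weights `w_i > 0` and let `ℓ ≠ p` be a prime number with `∑ e_j (e_j)_ℓ < ∑ w_i (w_i)_ℓ`. Then the
system `f_j = 0` has a nontrivial zero over a finite extension of `K` of degree prime to `ℓ`.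

Proof of (2) for `K = ℚ_p`: let `κ` be the union of the finite fields of characteristic `p` whose
degree is prime to `ℓ`. The Witt components of `f_j(x)` are weighted homogeneous of degrees
`e_j p ^ m` in the Witt components of the `x_i`, which have weights `w_i p ^ s`, and the `ℓ`-parts
of these weights are the `ℓ`-parts of `e_j` and of `w_i`. A weighted system over `κ` with
`∑ (e_j)_ℓ < ∑ (w_i)_ℓ` has a nontrivial zero (theorem of Chevalley at the prime `ℓ`): if it has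
none then all Hilbert series of graded quotients of the coordinate ring are polynomials modulo
`ℓ`. The approximation theorem of Greenberg completes the proof.

Co-authors: helper34, helper146, helper177, helper210, helper216, helper225; the use of Witt
components at a prime `ℓ ≠ p` is an idea of helper58.
-/

namespace Pool.Agent.Results.MP_b723a0_ag.PrimeToP

open MvPolynomial

/-- The degrees of the finite extensions of `K` over which the system `f` has a nontrivial common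
zero. The greatest common divisor of these numbers is the index of the variety `f = 0`. -/
def Degrees {ι κ K : Type} [Field K] (f : κ → MvPolynomial ι K) : Set ℕ :=
  {δ | ∃ (L : Type) (_ : Field L) (_ : Algebra K L), FiniteDimensional K L ∧
    Module.finrank K L = δ ∧ ∃ x : ι → L, x ≠ 0 ∧ ∀ j, aeval x (f j) = 0}

/-- The `ℓ`-part of `a`. -/
def part (ℓ a : ℕ) : ℕ := ℓ ^ a.factorization ℓ

theorem s_wit : Pool.Agent.Q49.TL.S_WIT :=
  Pool.Agent.Q216.TL.wit Q34.TL.gwi Pool.Agent.Q225.TL.kap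
    (Pool.Agent.Q49.TL.s_TK Pool.Agent.Q177.TL.Line.line)

theorem s_grb : Pool.Agent.Q49.TL.S_GRB :=
  Pool.Agent.Q49.TL.grb Pool.Agent.Q225.TL.gen Q34.TL.hen

theorem systems (p : ℕ) [Fact p.Prime] (K : Type) [Field K] [Algebra ℚ_[p] K]
    [FiniteDimensional ℚ_[p] K] (ι κ : Type) [Fintype ι] [Fintype κ] (w : ι → ℕ) (e : κ → ℕ)
    (f : κ → MvPolynomial ι K) (hw : ∀ i, 0 < w i) (he : ∀ j, 0 < e j)
    (hf : ∀ j, IsWeightedHomogeneous w (f j) (e j)) (ℓ : ℕ) (hℓ : ℓ.Prime) (hp : ℓ ≠ p)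
    (hlt : ∑ j, e j * part ℓ (e j) < ∑ i, w i * part ℓ (w i)) :
    ∃ δ ∈ Degrees f, ¬ ℓ ∣ δ := by
  haveI : Fact ℓ.Prime := ⟨hℓ⟩
  obtain ⟨L, _, _, hfin, hdeg, x, hx, hx2⟩ := Pool.Agent.Q49.TL.wp3 s_wit s_grb
    Pool.Agent.Q216.TL.unr Pool.Agent.Q225.TL.dsc p ℓ hp.symm K ι κ w e f hw he hf hlt
  exact ⟨_, ⟨L, inferInstance, inferInstance, hfin, rfl, x, hx, hx2⟩, hdeg⟩

theorem result (p : ℕ) [Fact p.Prime] (K : Type) [Field K] [Algebra ℚ_[p] K]
    [FiniteDimensional ℚ_[p] K] :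
    (∀ (n d : ℕ) (f : MvPolynomial (Fin (n + 1)) K), 1 ≤ n → 1 ≤ d → f.IsHomogeneous d →
      (∀ ℓ : ℕ, ℓ.Prime → ℓ ∣ d → ℓ ≠ p → d * part ℓ d ≤ n) →
      ∀ m : ℕ, (∀ δ ∈ Degrees (fun _ : Unit => f), m ∣ δ) → m ∣ part p d) ∧
    ∀ (ι κ : Type) [Fintype ι] [Fintype κ] (w : ι → ℕ) (e : κ → ℕ) (f : κ → MvPolynomial ι K),
      (∀ i, 0 < w i) → (∀ j, 0 < e j) → (∀ j, IsWeightedHomogeneous w (f j) (e j)) →
      ∀ ℓ : ℕ, ℓ.Prime → ℓ ≠ p → ∑ j, e j * part ℓ (e j) < ∑ i, w i * part ℓ (w i) →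
        ∃ δ ∈ Degrees f, ¬ ℓ ∣ δ := by
  refine ⟨fun n d f hn hd hf hℓ m hm => ?_, fun ι κ _ _ w e f hw he hf ℓ hℓ hp hlt =>
    systems p K ι κ w e f hw he hf ℓ hℓ hp hlt⟩
  have hp : p.Prime := Fact.out
  have h1 : m ∣ d := Pool.Agent.Q49.TL.idx_dvd f hn hf m hm
  have hm0 : m ≠ 0 := fun h => by
    rw [h, zero_dvd_iff] at h1
    omega
  have h2 : m = p ^ m.primeFactorsList.length := by
    refine Nat.eq_prime_pow_of_unique_prime_dvd hm0 fun {ℓ} hlp hlm => ?_
    by_contra hne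
    have hld : ℓ ∣ d := hlm.trans h1
    obtain ⟨δ, hδ, hδ2⟩ := systems p K (Fin (n + 1)) Unit (fun _ => 1) (fun _ => d)
      (fun _ => f) (fun _ => one_pos) (fun _ => hd) (fun _ => hf) ℓ hlp hne (by
        have h3 := hℓ ℓ hlp hld hne
        have h4 : part ℓ 1 = 1 := by simp [part]
        rw [Fintype.sum_unique, h4, Finset.sum_const, Finset.card_univ, Fintype.card_fin,
          smul_eq_mul, mul_one, mul_one]
        omega)
    exact hδ2 (hlm.trans (hm δ hδ))
  rw [h2] at h1 ⊢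
  exact pow_dvd_pow p ((hp.pow_dvd_iff_le_factorization (by omega)).1 h1)

end Pool.Agent.Results.MP_b723a0_ag.PrimeToP
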